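import Pool.Agent.H87.Bra.Wq
import Pool.Agent.H87.Bra.Rot2
import Pool.Agent.H87.Brt.Fi

set_option autoImplicit false

/-! The word problem for the blocks of types `A`, `B` and affine `A`. -/

namespace Pool.Agent.H87.Bra

open Pool.Agent.H482R3 Pool.Agent.H482R3.EB Pool.Agent.Helper741

theorem wps_B (n : ℕ) : WPS (Artin (CoxeterMatrix.B (n + 1))) :=
  WPS.inj (embB n) (embB_injective n) (wps_hh n)

theorem wps_cyc (n : ℕ) (hn : 2 ≤ n) : WPS (Artin (cyc (n + 1))) :=
  WPS.inj (embCyc n hn) (embCyc_injective n hn) (wps_hh n)

theorem alt_prod {G S : Type} [Group G] (f : S → G) (k : ℕ) : ∀ i j : S,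
    ((CoxeterSystem.alternatingWord i j k).map f).prod =
      if Even k then Helper741.alt (f i) (f j) k else Helper741.alt (f j) (f i) k := by
  induction k with
  | zero => intro i j; simp [CoxeterSystem.alternatingWord]
  | succ k ih =>
    intro i j
    rw [CoxeterSystem.alternatingWord_succ, List.concat_eq_append, List.map_append,
      List.prod_append, ih, List.map_singleton, List.prod_singleton]
    by_cases hk : Even k
    · have h1 : ¬ Even (k + 1) := by simpa [Nat.even_add_one] using hk
      rw [if_pos hk, if_neg h1, Helper741.alt_succ', if_pos hk]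
    · have h1 : Even (k + 1) := by simpa [Nat.even_add_one] using hk
      rw [if_neg hk, if_pos h1, Helper741.alt_succ', if_neg hk]

theorem alt_prod_eq {G S : Type} [Group G] (f : S → G) (k : ℕ) (i j : S) :
    ((CoxeterSystem.alternatingWord i j k).map f).prod =
        ((CoxeterSystem.alternatingWord j i k).map f).prod ↔
      Helper741.alt (f i) (f j) k = Helper741.alt (f j) (f i) k := by
  rw [alt_prod, alt_prod]
  by_cases hk : Even k
  · rw [if_pos hk, if_pos hk]
  · rw [if_neg hk, if_neg hk]
    exact eq_comm

theorem solv_of_wps {a : ℕ} {B : Type} (m : Fin a → Fin a → ℕ) (N : CoxeterMatrix B)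
    (σ : Fin a ≃ B) (h : ∀ i j, m i j = N (σ i) (σ j)) (hw : WPS (Artin N)) : SolvWP m := by
  have hφ : ∀ r ∈ {r : FreeGroup (Fin a) | ∃ i j : Fin a, m i j ≠ 0 ∧
      r = ((CoxeterSystem.alternatingWord i j (m i j)).map FreeGroup.of).prod *
        (((CoxeterSystem.alternatingWord j i (m i j)).map FreeGroup.of).prod)⁻¹},
      FreeGroup.lift (fun i => Artin.gen N (σ i)) r = 1 := by
    rintro r ⟨i, j, -, rfl⟩
    have h1 : ∀ i' j' : Fin a, FreeGroup.lift (fun i => Artin.gen N (σ i))
        (((CoxeterSystem.alternatingWord i' j' (m i j)).map FreeGroup.of).prod) =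
        ((CoxeterSystem.alternatingWord i' j' (m i j)).map fun i => Artin.gen N (σ i)).prod := by
      intro i' j'
      rw [map_list_prod, List.map_map]
      congr 1
    rw [map_mul, map_inv, h1, h1, mul_inv_eq_one, alt_prod_eq, h]
    exact Artin.rel _ _
  let φ : Art m →* Artin N := PresentedGroup.toGroup hφ
  have hof : ∀ i, φ (PresentedGroup.of i) = Artin.gen N (σ i) := fun i =>
    PresentedGroup.toGroup.of hφ
  let ψ : Artin N →* Art m := Artin.lift (fun b => PresentedGroup.of (σ.symm b)) (by
    intro b c
    by_cases h0 : N b c = 0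
    · rw [h0]; simp
    rw [← alt_prod_eq (fun b => (PresentedGroup.of (σ.symm b) : Art m))]
    have h1 : m (σ.symm b) (σ.symm c) = N b c := by
      rw [h, Equiv.apply_symm_apply, Equiv.apply_symm_apply]
    have h2 : (PresentedGroup.mk _
        (((CoxeterSystem.alternatingWord (σ.symm b) (σ.symm c) (N b c)).map FreeGroup.of).prod *
        (((CoxeterSystem.alternatingWord (σ.symm c) (σ.symm b) (N b c)).map FreeGroup.of).prod)⁻¹)
          : Art m) = 1 := by
      apply PresentedGroup.one_of_mem
      exact ⟨σ.symm b, σ.symm c, by rw [h1]; exact h0, by rw [h1]⟩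
    rw [map_mul, map_inv, mul_inv_eq_one, map_list_prod, map_list_prod, List.map_map,
      List.map_map] at h2
    have h3 : ∀ (b c : B) (k : ℕ), (CoxeterSystem.alternatingWord b c k).map
        (fun b => (PresentedGroup.of (σ.symm b) : Art m)) =
        (CoxeterSystem.alternatingWord (σ.symm b) (σ.symm c) k).map
          ((fun x => (PresentedGroup.mk _ x : Art m)) ∘ FreeGroup.of) := by
      intro b c k
      induction k generalizing b c with
      | zero => simp [CoxeterSystem.alternatingWord]
      | succ k ih =>
        rw [CoxeterSystem.alternatingWord_succ, CoxeterSystem.alternatingWord_succ,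
          List.concat_eq_append, List.concat_eq_append, List.map_append, List.map_append, ih]
        rfl
    rw [h3, h3]
    exact h2)
  have hinj : Function.Injective φ := by
    have h1 : ψ.comp φ = MonoidHom.id _ := by
      apply PresentedGroup.ext
      intro i
      rw [MonoidHom.comp_apply, hof]
      show ψ (Artin.gen N (σ i)) = _
      rw [Artin.lift_gen, Equiv.symm_apply_apply]
      rfl
    intro x y hxy
    have h2 := congrArg ψ hxy
    rw [← MonoidHom.comp_apply, ← MonoidHom.comp_apply, h1] at h2
    exact h2
  refine (hw a fun i => Artin.gen N (σ i)).of_eq fun u => ?_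
  have h4 : (u.map (fun a => if a.2 then (PresentedGroup.of a.1 : Art m)
      else (PresentedGroup.of a.1)⁻¹)).prod = vl (fun i => (PresentedGroup.of i : Art m)) u := rfl
  rw [h4, ← map_eq_one_iff φ hinj, vl_map]
  have h5 : (fun i => φ (PresentedGroup.of i)) = fun i => Artin.gen N (σ i) := funext hof
  rw [h5]

end Pool.Agent.H87.Bra
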