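import Pool.Agent.H87.Bra.Wq

set_option autoImplicit false

/-! The Artin groups of type `D` inside the semidirect product of a free group and the braid group. -/

namespace Pool.Agent.H87.Bra

open Pool.Agent.Helper741

section family

variable {G : Type*} [Group G]

/-- the action of the generators on families -/
def dact : ℕ → (ℕ → G) → ℕ → G
  | 0, x => fun k => if k = 0 then x 0 else (x 0)⁻¹ * x k
  | i + 1, x => fun k => if k = i then x (i + 1) else
      if k = i + 1 then x (i + 1) * (x i)⁻¹ * x (i + 1) else x k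

/-- its inverse -/
def dact' : ℕ → (ℕ → G) → ℕ → G
  | 0, x => fun k => if k = 0 then x 0 else x 0 * x k
  | i + 1, x => fun k => if k = i then x i * (x (i + 1))⁻¹ * x i else
      if k = i + 1 then x i else x k

theorem dact_zero (x : ℕ → G) (k : ℕ) : dact 0 x k = if k = 0 then x 0 else (x 0)⁻¹ * x k := rfl
theorem dact_succ (i : ℕ) (x : ℕ → G) (k : ℕ) : dact (i + 1) x k = if k = i then x (i + 1) else
      if k = i + 1 then x (i + 1) * (x i)⁻¹ * x (i + 1) else x k := rfl
theorem dact'_zero (x : ℕ → G) (k : ℕ) : dact' 0 x k = if k = 0 then x 0 else x 0 * x k := rfl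
theorem dact'_succ (i : ℕ) (x : ℕ → G) (k : ℕ) : dact' (i + 1) x k =
    if k = i then x i * (x (i + 1))⁻¹ * x i else if k = i + 1 then x i else x k := rfl
theorem d00 (x : ℕ → G) : dact 0 x 0 = x 0 := rfl
theorem d0s (x : ℕ → G) (k : ℕ) : dact 0 x (k + 1) = (x 0)⁻¹ * x (k + 1) := rfl
theorem d0n (x : ℕ → G) {k : ℕ} (h : k ≠ 0) : dact 0 x k = (x 0)⁻¹ * x k := if_neg h
theorem ds0 (i : ℕ) (x : ℕ → G) : dact (i + 1) x i = x (i + 1) := if_pos rfl
theorem ds1 (i : ℕ) (x : ℕ → G) : dact (i + 1) x (i + 1) = x (i + 1) * (x i)⁻¹ * x (i + 1) := by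
  show (if i + 1 = i then x (i + 1) else
      if i + 1 = i + 1 then x (i + 1) * (x i)⁻¹ * x (i + 1) else x (i + 1)) = _
  rw [if_neg (by omega), if_pos rfl]
theorem dsn {i k : ℕ} (x : ℕ → G) (h1 : k ≠ i) (h2 : k ≠ i + 1) : dact (i + 1) x k = x k := by
  show (if k = i then x (i + 1) else
      if k = i + 1 then x (i + 1) * (x i)⁻¹ * x (i + 1) else x k) = _
  rw [if_neg h1, if_neg h2]

theorem dact_dact' (i : ℕ) (x : ℕ → G) : dact i (dact' i x) = x := by
  funext k
  cases i with
  | zero =>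
    by_cases h : k = 0
    · subst h; rfl
    · rw [d0n _ h]
      show (dact' 0 x 0)⁻¹ * (if k = 0 then x 0 else x 0 * x k) = x k
      rw [if_neg h]
      show (x 0)⁻¹ * (x 0 * x k) = x k
      group
  | succ i =>
    have e0 : dact' (i + 1) x i = x i * (x (i + 1))⁻¹ * x i := if_pos rfl
    have e1 : dact' (i + 1) x (i + 1) = x i := by
      show (if i + 1 = i then _ else if i + 1 = i + 1 then x i else _) = _
      rw [if_neg (by omega), if_pos rfl]
    by_cases h1 : k = i
    · subst h1; rw [ds0, e1]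
    · by_cases h2 : k = i + 1
      · subst h2; rw [ds1, e0, e1]; group
      · rw [dsn _ h1 h2]
        show (if k = i then _ else if k = i + 1 then x i else x k) = _
        rw [if_neg h1, if_neg h2]

theorem dact'_dact (i : ℕ) (x : ℕ → G) : dact' i (dact i x) = x := by
  funext k
  cases i with
  | zero =>
    show (if k = 0 then dact 0 x 0 else dact 0 x 0 * dact 0 x k) = x k
    by_cases h : k = 0
    · subst h; rfl
    · rw [if_neg h, d0n _ h, d00]; group
  | succ i =>
    show (if k = i then dact (i + 1) x i * (dact (i + 1) x (i + 1))⁻¹ * dact (i + 1) x i else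
      if k = i + 1 then dact (i + 1) x i else dact (i + 1) x k) = x k
    by_cases h1 : k = i
    · subst h1; rw [if_pos rfl, ds0, ds1]; group
    · by_cases h2 : k = i + 1
      · subst h2; rw [if_neg h1, if_pos rfl, ds0]
      · rw [if_neg h1, if_neg h2, dsn _ h1 h2]

theorem dact_comm {i j : ℕ} (h : i + 2 ≤ j) (x : ℕ → G) :
    dact i (dact j x) = dact j (dact i x) := by
  obtain ⟨j, rfl⟩ : ∃ j', j = j' + 1 := ⟨j - 1, by omega⟩
  funext k
  cases i with
  | zero =>
    by_cases h0 : k = 0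
    · subst h0
      rw [d00, dsn _ (by omega) (by omega), dsn _ (by omega) (by omega), d00]
    · rw [d0n _ h0, dsn (k := 0) _ (by omega) (by omega)]
      by_cases h1 : k = j
      · subst h1; rw [ds0, ds0, d0n _ (by omega)]
      · by_cases h2 : k = j + 1
        · subst h2; rw [ds1, ds1, d0n (k := j) _ (by omega), d0n _ h0]; group
        · rw [dsn _ h1 h2, dsn _ h1 h2, d0n _ h0]
  | succ i =>
    by_cases h1 : k = i
    · subst h1
      rw [ds0, dsn _ (by omega) (by omega), dsn _ (by omega) (by omega), ds0]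
    · by_cases h2 : k = i + 1
      · subst h2
        rw [ds1, dsn _ (by omega) (by omega), dsn _ (by omega) (by omega),
          dsn _ (by omega) (by omega), ds1]
      · rw [dsn _ h1 h2]
        by_cases h3 : k = j
        · subst h3
          rw [ds0, ds0, dsn _ (by omega) (by omega)]
        · by_cases h4 : k = j + 1
          · subst h4
            rw [ds1, ds1, dsn _ (by omega) (by omega), dsn _ (by omega) (by omega)]
          · rw [dsn _ h3 h4, dsn _ h3 h4, dsn _ h1 h2]

theorem dact_braid (i : ℕ) (x : ℕ → G) :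
    dact i (dact (i + 1) (dact i x)) = dact (i + 1) (dact i (dact (i + 1) x)) := by
  funext k
  cases i with
  | zero =>
    by_cases h0 : k = 0
    · subst h0
      rw [d00, ds0, ds0, d0n _ (by omega), d0n _ (by omega), ds0, ds1]
      group
    · by_cases h1 : k = 1
      · subst h1
        rw [d0n _ h0, ds0, ds1, ds1, d0n _ h0, d00, d0n (k := 0 + 1) _ (by omega), ds1, d00, ds0]
        group
      · rw [d0n _ h0, ds0, dsn _ h0 h1, dsn _ h0 h1, d0n _ h0, d0n _ h0, dsn _ h0 h1, ds0,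
          d0n _ (by omega)]
        group
  | succ i =>
    have e0 : ∀ y : ℕ → G, dact (i + 1 + 1) y i = y i := fun y => dsn _ (by omega) (by omega)
    have e1 : ∀ y : ℕ → G, dact (i + 1) y (i + 1 + 1) = y (i + 1 + 1) :=
      fun y => dsn _ (by omega) (by omega)
    by_cases h1 : k = i
    · subst h1
      rw [ds0, ds0, e1, e0, ds0, ds0]
    · by_cases h2 : k = i + 1
      · subst h2
        rw [ds1, ds0, e0, e1, ds0, ds0, e1, ds1]
      · by_cases h3 : k = i + 1 + 1
        · subst h3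
          rw [e1, ds1, ds1 (i + 1), e1, ds1, e1, ds1, ds1, e0, ds0]
          group
        · rw [dsn _ h1 h2, dsn _ h2 h3, dsn _ h1 h2, dsn _ h2 h3, dsn _ h1 h2, dsn _ h2 h3]

theorem map_dact {G' : Type*} [Group G'] (f : G →* G') (i : ℕ) (x : ℕ → G) (k : ℕ) :
    f (dact i x k) = dact i (fun k => f (x k)) k := by
  cases i with
  | zero =>
    by_cases h : k = 0
    · subst h; rfl
    · rw [d0n _ h, d0n _ h, map_mul, map_inv]
  | succ i =>
    by_cases h1 : k = i
    · subst h1; rw [ds0, ds0]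
    · by_cases h2 : k = i + 1
      · subst h2; rw [ds1, ds1, map_mul, map_mul, map_inv]
      · rw [dsn _ h1 h2, dsn _ h1 h2]

theorem map_dact' {G' : Type*} [Group G'] (f : G →* G') (i : ℕ) (x : ℕ → G) (k : ℕ) :
    f (dact' i x k) = dact' i (fun k => f (x k)) k := by
  cases i with
  | zero =>
    rw [dact'_zero, dact'_zero]
    split_ifs
    · rfl
    · rw [map_mul]
  | succ i =>
    rw [dact'_succ, dact'_succ]
    split_ifs
    · rw [map_mul, map_mul, map_inv]
    · rfl
    · rfl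

theorem dact_congr {m i : ℕ} (hi : i < m) {x y : ℕ → G} (h : ∀ k, k < m → x k = y k) (k : ℕ)
    (hk : k < m) : dact i x k = dact i y k := by
  cases i with
  | zero => rw [dact_zero, dact_zero, h 0 (by omega), h k hk]
  | succ i => rw [dact_succ, dact_succ, h i (by omega), h (i + 1) hi, h k hk]

theorem dact'_congr {m i : ℕ} (hi : i < m) {x y : ℕ → G} (h : ∀ k, k < m → x k = y k) (k : ℕ)
    (hk : k < m) : dact' i x k = dact' i y k := by
  cases i with
  | zero => rw [dact'_zero, dact'_zero, h 0 (by omega), h k hk]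
  | succ i => rw [dact'_succ, dact'_succ, h i (by omega), h (i + 1) hi, h k hk]

end family

section free

/-- the automorphism -/
def daut (m i : ℕ) (h : i < m) : MulAut (FreeGroup (Fin m)) :=
  MonoidHom.toMulEquiv (fl (dact i (xg m))) (fl (dact' i (xg m)))
    (free_ext fun k hk => by
      rw [MonoidHom.comp_apply, fl_xg _ hk, map_dact, MonoidHom.id_apply]
      rw [dact_congr h (y := dact' i (xg m)) (fun l hl => fl_xg _ hl) k hk, dact_dact'])
    (free_ext fun k hk => by
      rw [MonoidHom.comp_apply, fl_xg _ hk, map_dact', MonoidHom.id_apply]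
      rw [dact'_congr h (y := dact i (xg m)) (fun l hl => fl_xg _ hl) k hk, dact'_dact])

theorem daut_xg {m i : ℕ} (h : i < m) {k : ℕ} (hk : k < m) :
    daut m i h (xg m k) = dact i (xg m) k := fl_xg _ hk

theorem daut_comm {m i j : ℕ} (hi : i < m) (hj : j < m) (hij : i + 2 ≤ j) :
    daut m i hi * daut m j hj = daut m j hj * daut m i hi := by
  refine aut_hom_ext fun k hk => ?_
  show daut m i hi (daut m j hj (xg m k)) = daut m j hj (daut m i hi (xg m k))
  rw [daut_xg hj hk, daut_xg hi hk]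
  have e1 := map_dact (daut m i hi).toMonoidHom j (xg m) k
  have e2 := map_dact (daut m j hj).toMonoidHom i (xg m) k
  refine e1.trans (Eq.trans ?_ e2.symm)
  exact (dact_congr hj (fun l hl => daut_xg hi hl) k hk).trans
    ((congrFun (dact_comm hij (xg m)) k).symm.trans
      (dact_congr hi (fun l hl => daut_xg hj hl) k hk).symm)

theorem daut_braid {m i : ℕ} (hi : i < m) (hj : i + 1 < m) :
    daut m i hi * daut m (i + 1) hj * daut m i hi =
      daut m (i + 1) hj * daut m i hi * daut m (i + 1) hj := by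
  have key : ∀ {a b : ℕ} (ha : a < m) (hb : b < m) (k : ℕ), k < m →
      (daut m a ha * daut m b hb * daut m a ha) (xg m k) = dact a (dact b (dact a (xg m))) k := by
    intro a b ha hb k hk
    show daut m a ha (daut m b hb (daut m a ha (xg m k))) = _
    rw [daut_xg ha hk]
    have e1 := map_dact ((daut m a ha).toMonoidHom.comp (daut m b hb).toMonoidHom) a (xg m) k
    refine e1.trans (dact_congr ha (fun l hl => ?_) k hk)
    show daut m a ha (daut m b hb (xg m l)) = _
    rw [daut_xg hb hl]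
    exact (map_dact (daut m a ha).toMonoidHom b (xg m) l).trans
      (dact_congr hb (fun l hl => daut_xg ha hl) l hl)
  refine aut_hom_ext fun k hk => ?_
  rw [key hi hj k hk, key hj hi k hk, dact_braid]

/-- the automorphisms, indexed by the natural numbers -/
def dautN (m i : ℕ) : MulAut (FreeGroup (Fin m)) := if h : i < m then daut m i h else 1

/-- the action of the braid group -/
def rhoD (n : ℕ) : Bn n →* MulAut (FreeGroup (Fin n)) :=
  bLift (dautN n) (fun i j hij hj => by
    unfold dautN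
    rw [dif_pos (by omega), dif_pos (by omega)]
    exact daut_comm _ _ hij) (fun i hi => by
    unfold dautN
    rw [dif_pos (by omega), dif_pos (by omega)]
    exact daut_braid _ _)

theorem rhoD_sg {n i k : ℕ} (hi : i < n) (hk : k < n) :
    rhoD n (sg n i) (xg n k) = dact i (xg n) k := by
  unfold rhoD
  rw [bLift_sg _ _ _ hi]
  unfold dautN
  rw [dif_pos (by omega)]
  exact daut_xg _ hk

/-- the semidirect product -/
abbrev DD (n : ℕ) : Type := FreeGroup (Fin n) ⋊[rhoD n] Bn n

end free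

theorem wps_dd (n : ℕ) : WPS (DD n) := WPS.semi (rhoD n) (wps_bn n)

section lift

variable {G : Type*} [Group G] {n : ℕ} (g : Bn n →* G) (a : G)

/-- the images of the free generators -/
def zz : ℕ → G
  | 0 => a * (g (sg n 0))⁻¹
  | k + 1 => g (sg n (k + 1)) * zz k * (g (sg n (k + 1)))⁻¹

variable (h0 : a * g (sg n 0) = g (sg n 0) * a)
  (h1 : 1 < n → a * g (sg n 1) * a = g (sg n 1) * a * g (sg n 1))
  (h2 : ∀ i, 2 ≤ i → i < n → a * g (sg n i) = g (sg n i) * a)

include h2 in
theorem zzA (k : ℕ) : ∀ i, k + 2 ≤ i → i < n → Commute (g (sg n i)) (zz g a k) := by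
  induction k with
  | zero =>
    intro i hi hin
    have e1 : Commute (g (sg n i)) (g (sg n 0)) := by
      show _ * _ = _ * _
      rw [← map_mul, ← map_mul, sg_comm (i := 0) (j := i) (by omega)]
    exact (show Commute (g (sg n i)) a from (h2 i hi hin).symm).mul_right e1.inv_right
  | succ k ih =>
    intro i hi hin
    have e1 : Commute (g (sg n i)) (g (sg n (k + 1))) := by
      show _ * _ = _ * _
      rw [← map_mul, ← map_mul, sg_comm (i := k + 1) (j := i) (by omega)]
    exact (e1.mul_right (ih i (by omega) hin)).mul_right e1.inv_right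

include h2 in
theorem zzB (k i : ℕ) (hi : i + 1 + 1 ≤ k) (hk : k < n) :
    Commute (g (sg n (i + 1))) (zz g a k) := by
  induction k, hi using Nat.le_induction with
  | base =>
    have e1 := zzA g a h2 i (i + 1 + 1) le_rfl hk
    have e2 : g (sg n (i + 1)) * g (sg n (i + 1 + 1)) * g (sg n (i + 1)) =
        g (sg n (i + 1 + 1)) * g (sg n (i + 1)) * g (sg n (i + 1 + 1)) := by
      rw [← map_mul, ← map_mul, ← map_mul, ← map_mul, sg_braid (by omega)]
    show g (sg n (i + 1)) * (g (sg n (i + 1 + 1)) * (g (sg n (i + 1)) * zz g a i *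
      (g (sg n (i + 1)))⁻¹) * (g (sg n (i + 1 + 1)))⁻¹) =
      (g (sg n (i + 1 + 1)) * (g (sg n (i + 1)) * zz g a i *
      (g (sg n (i + 1)))⁻¹) * (g (sg n (i + 1 + 1)))⁻¹) * g (sg n (i + 1))
    have e1' : g (sg n (i + 1 + 1)) * zz g a i = zz g a i * g (sg n (i + 1 + 1)) := e1
    clear e1
    generalize g (sg n (i + 1)) = s at *
    generalize g (sg n (i + 1 + 1)) = b at *
    generalize zz g a i = y at *
    have e4 : s⁻¹ * b⁻¹ * s⁻¹ = b⁻¹ * s⁻¹ * b⁻¹ := by
      have := congrArg (·⁻¹) e2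
      simpa [mul_assoc] using this
    have e3 : s * b * s * y * s⁻¹ * b⁻¹ * s⁻¹ = b * s * y * s⁻¹ * b⁻¹ := by
      calc s * b * s * y * s⁻¹ * b⁻¹ * s⁻¹ = (s * b * s) * y * (s⁻¹ * b⁻¹ * s⁻¹) := by group
        _ = (b * s * b) * y * (b⁻¹ * s⁻¹ * b⁻¹) := by rw [e2, e4]
        _ = b * s * (b * y) * b⁻¹ * s⁻¹ * b⁻¹ := by group
        _ = b * s * (y * b) * b⁻¹ * s⁻¹ * b⁻¹ := by rw [e1']
        _ = b * s * y * s⁻¹ * b⁻¹ := by group
    calc s * (b * (s * y * s⁻¹) * b⁻¹) = (s * b * s * y * s⁻¹ * b⁻¹ * s⁻¹) * s := by group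
      _ = (b * s * y * s⁻¹ * b⁻¹) * s := by rw [e3]
      _ = (b * (s * y * s⁻¹) * b⁻¹) * s := by group
  | succ k hk' ih =>
    have e1 : Commute (g (sg n (i + 1))) (g (sg n (k + 1))) := by
      show _ * _ = _ * _
      rw [← map_mul, ← map_mul, sg_comm (by omega)]
    exact (e1.mul_right (ih (by omega))).mul_right e1.inv_right

/-- two computations in the group of type `D_3` -/
theorem base_rel {s t : G} (e0 : a * s = s * a) (e1 : a * t * a = t * a * t)
    (e2 : s * t * s = t * s * t) :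
    s * (t * (a * s⁻¹) * t⁻¹) * s⁻¹ = (a * s⁻¹)⁻¹ * (t * (a * s⁻¹) * t⁻¹) ∧
    t * (t * (a * s⁻¹) * t⁻¹) * t⁻¹ =
      (t * (a * s⁻¹) * t⁻¹) * (a * s⁻¹)⁻¹ * (t * (a * s⁻¹) * t⁻¹) := by
  have f1 : s⁻¹ * t⁻¹ * s⁻¹ = t⁻¹ * s⁻¹ * t⁻¹ := by
    have := congrArg (·⁻¹) e2
    simpa [mul_assoc] using this
  have f2 : t * a * t⁻¹ = a⁻¹ * t * a := by
    calc t * a * t⁻¹ = a⁻¹ * (a * t * a) * t⁻¹ := by group
      _ = a⁻¹ * (t * a * t) * t⁻¹ := by rw [e1]
      _ = a⁻¹ * t * a := by group
  have f3 : s⁻¹ * t⁻¹ * s = t * s⁻¹ * t⁻¹ := by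
    calc s⁻¹ * t⁻¹ * s = (s⁻¹ * (t * s * t) * t⁻¹)⁻¹ := by group
      _ = (s⁻¹ * (s * t * s) * t⁻¹)⁻¹ := by rw [e2]
      _ = t * s⁻¹ * t⁻¹ := by group
  have f4 : s⁻¹ * a = a * s⁻¹ := by
    calc s⁻¹ * a = s⁻¹ * (a * s) * s⁻¹ := by group
      _ = s⁻¹ * (s * a) * s⁻¹ := by rw [e0]
      _ = a * s⁻¹ := by group
  constructor
  · calc s * (t * (a * s⁻¹) * t⁻¹) * s⁻¹ = s * t * a * (s⁻¹ * t⁻¹ * s⁻¹) := by group
      _ = s * t * a * (t⁻¹ * s⁻¹ * t⁻¹) := by rw [f1]
      _ = s * (t * a * t⁻¹) * s⁻¹ * t⁻¹ := by group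
      _ = s * (a⁻¹ * t * a) * s⁻¹ * t⁻¹ := by rw [f2]
      _ = (a * s⁻¹)⁻¹ * (t * (a * s⁻¹) * t⁻¹) := by group
  · symm
    calc (t * (a * s⁻¹) * t⁻¹) * (a * s⁻¹)⁻¹ * (t * (a * s⁻¹) * t⁻¹)
        = t * a * (s⁻¹ * t⁻¹ * s) * (a⁻¹ * t * a) * s⁻¹ * t⁻¹ := by group
      _ = t * a * (t * s⁻¹ * t⁻¹) * (t * a * t⁻¹) * s⁻¹ * t⁻¹ := by rw [f3, ← f2]
      _ = t * a * t * (s⁻¹ * a) * (t⁻¹ * s⁻¹ * t⁻¹) := by group
      _ = t * a * t * (a * s⁻¹) * (s⁻¹ * t⁻¹ * s⁻¹) := by rw [f4, ← f1]
      _ = t * (a * t * a) * s⁻¹ * s⁻¹ * t⁻¹ * s⁻¹ := by group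
      _ = t * (t * a * t) * s⁻¹ * s⁻¹ * t⁻¹ * s⁻¹ := by rw [e1]
      _ = t * t * a * (t * s⁻¹ * t⁻¹) * (t * s⁻¹ * t⁻¹) * s⁻¹ := by group
      _ = t * t * a * (s⁻¹ * t⁻¹ * s) * (s⁻¹ * t⁻¹ * s) * s⁻¹ := by rw [← f3]
      _ = t * (t * (a * s⁻¹) * t⁻¹) * t⁻¹ := by group

include h0 h1 in
theorem base' (h : 1 < n) :
    g (sg n 0) * zz g a 1 * (g (sg n 0))⁻¹ = (zz g a 0)⁻¹ * zz g a 1 ∧
    g (sg n 1) * zz g a 1 * (g (sg n 1))⁻¹ = zz g a 1 * (zz g a 0)⁻¹ * zz g a 1 := by
  have e2 : g (sg n 0) * g (sg n 1) * g (sg n 0) = g (sg n 1) * g (sg n 0) * g (sg n 1) := by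
    rw [← map_mul, ← map_mul, ← map_mul, ← map_mul, sg_braid (i := 0) (by omega)]
  exact base_rel a h0 (h1 h) e2

include h0 h1 h2 in
theorem zz0 (k : ℕ) (hk : k + 1 < n) :
    g (sg n 0) * zz g a (k + 1) * (g (sg n 0))⁻¹ = (zz g a 0)⁻¹ * zz g a (k + 1) := by
  induction k with
  | zero => exact (base' g a h0 h1 hk).1
  | succ k ih =>
    have e0 := ih (by omega)
    have e1 : g (sg n 0) * g (sg n (k + 1 + 1)) = g (sg n (k + 1 + 1)) * g (sg n 0) := by
      rw [← map_mul, ← map_mul, sg_comm (by omega)]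
    have e2 : g (sg n (k + 1 + 1)) * zz g a 0 = zz g a 0 * g (sg n (k + 1 + 1)) :=
      zzA g a h2 0 (k + 1 + 1) (by omega) hk
    show g (sg n 0) * (g (sg n (k + 1 + 1)) * zz g a (k + 1) * (g (sg n (k + 1 + 1)))⁻¹) *
      (g (sg n 0))⁻¹ = (zz g a 0)⁻¹ * (g (sg n (k + 1 + 1)) * zz g a (k + 1) *
        (g (sg n (k + 1 + 1)))⁻¹)
    generalize g (sg n (k + 1 + 1)) = t at *
    generalize g (sg n 0) = s at *
    generalize zz g a (k + 1) = y at *
    generalize zz g a 0 = w at *
    have e3 : t⁻¹ * s⁻¹ = s⁻¹ * t⁻¹ := by rw [← mul_inv_rev, ← mul_inv_rev, e1]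
    have e4 : t * w⁻¹ = w⁻¹ * t := by
      calc t * w⁻¹ = w⁻¹ * (w * t) * w⁻¹ := by group
        _ = w⁻¹ * (t * w) * w⁻¹ := by rw [e2]
        _ = w⁻¹ * t := by group
    calc s * (t * y * t⁻¹) * s⁻¹ = (s * t) * y * (t⁻¹ * s⁻¹) := by group
      _ = (t * s) * y * (s⁻¹ * t⁻¹) := by rw [e1, e3]
      _ = t * (s * y * s⁻¹) * t⁻¹ := by group
      _ = t * (w⁻¹ * y) * t⁻¹ := by rw [e0]
      _ = (t * w⁻¹) * y * t⁻¹ := by group
      _ = (w⁻¹ * t) * y * t⁻¹ := by rw [e4]
      _ = w⁻¹ * (t * y * t⁻¹) := by group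

include h0 h1 h2 in
theorem zzC (i : ℕ) (hi : i + 1 < n) :
    g (sg n (i + 1)) * zz g a (i + 1) * (g (sg n (i + 1)))⁻¹ =
      zz g a (i + 1) * (zz g a i)⁻¹ * zz g a (i + 1) := by
  induction i with
  | zero => exact (base' g a h0 h1 hi).2
  | succ i ih =>
    have e0 := ih (by omega)
    have e1 : g (sg n (i + 1 + 1)) * zz g a i = zz g a i * g (sg n (i + 1 + 1)) :=
      zzA g a h2 i (i + 1 + 1) le_rfl hi
    have e2 : g (sg n (i + 1)) * g (sg n (i + 1 + 1)) * g (sg n (i + 1)) =
        g (sg n (i + 1 + 1)) * g (sg n (i + 1)) * g (sg n (i + 1 + 1)) := by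
      rw [← map_mul, ← map_mul, ← map_mul, ← map_mul, sg_braid (by omega)]
    have d1 : zz g a (i + 1) = g (sg n (i + 1)) * zz g a i * (g (sg n (i + 1)))⁻¹ := rfl
    have d2 : zz g a (i + 1 + 1) = g (sg n (i + 1 + 1)) * zz g a (i + 1) *
      (g (sg n (i + 1 + 1)))⁻¹ := rfl
    generalize zz g a (i + 1 + 1) = v at *
    generalize zz g a (i + 1) = w at *
    generalize g (sg n (i + 1)) = t at *
    generalize g (sg n (i + 1 + 1)) = b at *
    generalize zz g a i = y at *
    have f1 : b = (t * b) * t * (t * b)⁻¹ := by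
      rw [eq_mul_inv_iff_mul_eq, ← mul_assoc, ← e2]
    have f2 : w = (t * b) * y * (t * b)⁻¹ := by
      rw [d1]
      calc t * y * t⁻¹ = t * (y * b) * b⁻¹ * t⁻¹ := by group
        _ = t * (b * y) * b⁻¹ * t⁻¹ := by rw [e1]
        _ = _ := by group
    have f3 : v = (t * b) * w * (t * b)⁻¹ := by
      have e4 : t⁻¹ * b⁻¹ * t⁻¹ = b⁻¹ * t⁻¹ * b⁻¹ := by
        have := congrArg (·⁻¹) e2
        simpa [mul_assoc] using this
      symm
      calc (t * b) * w * (t * b)⁻¹ = (t * b) * (t * y * t⁻¹) * (t * b)⁻¹ := by rw [d1]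
        _ = (t * b * t) * y * (t⁻¹ * b⁻¹ * t⁻¹) := by group
        _ = (b * t * b) * y * (b⁻¹ * t⁻¹ * b⁻¹) := by rw [e2, e4]
        _ = b * t * (b * y) * b⁻¹ * t⁻¹ * b⁻¹ := by group
        _ = b * t * (y * b) * b⁻¹ * t⁻¹ * b⁻¹ := by rw [e1]
        _ = b * (t * y * t⁻¹) * b⁻¹ := by group
        _ = v := by rw [← d1, ← d2]
    have f4 : (t * b) * (t * w * t⁻¹) * (t * b)⁻¹ = (t * b) * (w * y⁻¹ * w) * (t * b)⁻¹ := by
      rw [e0]
    calc b * v * b⁻¹ = ((t * b) * t * (t * b)⁻¹) * ((t * b) * w * (t * b)⁻¹) *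
          ((t * b) * t * (t * b)⁻¹)⁻¹ := by rw [← f1, ← f3]
      _ = (t * b) * (t * w * t⁻¹) * (t * b)⁻¹ := by group
      _ = (t * b) * (w * y⁻¹ * w) * (t * b)⁻¹ := f4
      _ = ((t * b) * w * (t * b)⁻¹) * ((t * b) * y * (t * b)⁻¹)⁻¹ *
          ((t * b) * w * (t * b)⁻¹) := by group
      _ = v * w⁻¹ * v := by rw [← f2, ← f3]

include h0 h1 h2 in
/-- the relations of the semidirect product -/
theorem zz_act {i k : ℕ} (hi : i < n) (hk : k < n) :
    g (sg n i) * zz g a k * (g (sg n i))⁻¹ = dact i (zz g a) k := by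
  cases i with
  | zero =>
    cases k with
    | zero =>
      show g (sg n 0) * (a * (g (sg n 0))⁻¹) * (g (sg n 0))⁻¹ = a * (g (sg n 0))⁻¹
      rw [← mul_assoc, ← h0]
      group
    | succ k => rw [d0s, zz0 g a h0 h1 h2 k hk]
  | succ i =>
    rcases lt_trichotomy k i with h | h | h
    · rw [dsn _ (by omega) (by omega)]
      have := zzA g a h2 k (i + 1) (by omega) hi
      rw [this.eq, mul_inv_cancel_right]
    · subst h
      rw [ds0]
      rfl
    · rcases eq_or_lt_of_le (Nat.succ_le_of_lt h) with h' | h'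
      · obtain rfl : k = i + 1 := h'.symm
        rw [ds1, zzC g a h0 h1 h2 i hi]
      · rw [dsn _ (by omega) (by omega)]
        have := zzB g a h2 k i (by omega) hk
        rw [this.eq, mul_inv_cancel_right]

include h0 h1 h2 in
theorem zz_compat (b : Bn n) (w : FreeGroup (Fin n)) :
    fl (zz g a) (rhoD n b w) = g b * fl (zz g a) w * (g b)⁻¹ := by
  revert w
  refine b_ind (p := fun b => ∀ w, fl (zz g a) (rhoD n b w) = g b * fl (zz g a) w * (g b)⁻¹)
    ?_ ?_ ?_ ?_ b
  · intro w
    simp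
  · intro i hi w
    have : (fl (zz g a)).comp (rhoD n (sg n i)).toMonoidHom =
        (MulAut.conj (g (sg n i))).toMonoidHom.comp (fl (zz g a)) := by
      refine free_ext fun k hk => ?_
      show fl (zz g a) (rhoD n (sg n i) (xg n k)) =
        g (sg n i) * fl (zz g a) (xg n k) * (g (sg n i))⁻¹
      rw [rhoD_sg hi hk, map_dact, fl_xg _ hk, zz_act g a h0 h1 h2 hi hk]
      exact dact_congr (m := n) hi (fun l hl => fl_xg _ hl) k hk
    exact DFunLike.congr_fun this w
  · intro x y hx hy w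
    rw [map_mul, MulAut.mul_apply, hx, hy, map_mul, mul_inv_rev]
    group
  · intro x hx w
    have e1 := hx (rhoD n x⁻¹ w)
    rw [← MulAut.mul_apply, ← map_mul, mul_inv_cancel, map_one, MulAut.one_apply] at e1
    have e2 : g x⁻¹ = (g x)⁻¹ := map_inv g x
    rw [e1, e2]
    group

/-- the universal property of the semidirect product -/
def dlift : DD n →* G :=
  SemidirectProduct.lift (fl (zz g a)) g fun b => MonoidHom.ext fun w => zz_compat g a h0 h1 h2 b w

theorem dlift_inr (b : Bn n) : dlift g a h0 h1 h2 (SemidirectProduct.inr b) = g b :=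
  SemidirectProduct.lift_inr _ _ _ _

theorem dlift_x {k : ℕ} (hk : k < n) :
    dlift g a h0 h1 h2 (SemidirectProduct.inl (xg n k)) = zz g a k := by
  unfold dlift
  rw [SemidirectProduct.lift_inl, fl_xg _ hk]

end lift

section group

/-- the Coxeter matrix of type `D_{n+1}`: the path `some 0, ..., some (n - 1)`, and `none` is joined to
`some 1` -/
def typeD (n : ℕ) : CoxeterMatrix (Option (Fin n)) where
  M := fun x y => match x, y with
    | none, none => 1
    | none, some j => if (j : ℕ) = 1 then 3 else 2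
    | some i, none => if (i : ℕ) = 1 then 3 else 2
    | some i, some j => CoxeterMatrix.A n i j
  isSymm := by
    ext x y
    rcases x with _ | i <;> rcases y with _ | j
    · rfl
    · rfl
    · rfl
    · exact (CoxeterMatrix.A n).symmetric j i
  diagonal := by
    intro x
    rcases x with _ | i
    · rfl
    · exact (CoxeterMatrix.A n).diagonal i
  off_diagonal := by
    intro x y h
    rcases x with _ | i <;> rcases y with _ | j
    · exact absurd rfl h
    · show (if (j : ℕ) = 1 then 3 else 2) ≠ 1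
      split_ifs <;> omega
    · show (if (i : ℕ) = 1 then 3 else 2) ≠ 1
      split_ifs <;> omega
    · exact (CoxeterMatrix.A n).off_diagonal i j fun h' => h (by rw [h'])

variable {n : ℕ}

/-- the images of the free generators and of the braids -/
def fD (n k : ℕ) : DD n := SemidirectProduct.inl (xg n k)

/-- the images of the braids -/
def sD (n i : ℕ) : DD n := SemidirectProduct.inr (sg n i)

theorem sD_fD {i k : ℕ} (hi : i < n) (hk : k < n) :
    sD n i * fD n k * (sD n i)⁻¹ = dact i (fD n) k := by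
  show (SemidirectProduct.inr (sg n i) : DD n) * SemidirectProduct.inl (xg n k) *
    (SemidirectProduct.inr (sg n i))⁻¹ = _
  rw [← map_inv, ← SemidirectProduct.inl_aut, rhoD_sg hi hk]
  exact map_dact SemidirectProduct.inl i (xg n) k

theorem sD_fD' {i k : ℕ} (hi : i < n) (hk : k < n) :
    sD n i * fD n k = dact i (fD n) k * sD n i := by
  rw [← sD_fD hi hk]
  group

theorem sD_comm {i j : ℕ} (h : i + 2 ≤ j) : sD n i * sD n j = sD n j * sD n i := by
  unfold sD
  rw [← map_mul, ← map_mul, sg_comm h]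

theorem sD_braid {i : ℕ} (h : i + 1 < n) :
    sD n i * sD n (i + 1) * sD n i = sD n (i + 1) * sD n i * sD n (i + 1) := by
  unfold sD
  rw [← map_mul, ← map_mul, ← map_mul, ← map_mul, sg_braid h]

theorem aD_zero (h : 0 < n) : (fD n 0 * sD n 0) * sD n 0 = sD n 0 * (fD n 0 * sD n 0) := by
  rw [← mul_assoc (sD n 0), sD_fD' h h, d00]

theorem aD_one (h : 1 < n) : (fD n 0 * sD n 0) * sD n 1 * (fD n 0 * sD n 0) =
    sD n 1 * (fD n 0 * sD n 0) * sD n 1 := by
  have e1 : sD n 1 * fD n 0 = fD n 1 * sD n 1 := by rw [sD_fD' h (by omega), ds0]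
  have e2 : sD n 0 * fD n 1 = (fD n 0)⁻¹ * fD n 1 * sD n 0 := by
    rw [sD_fD' (by omega) h, d0n _ (by omega)]
  have e3 : sD n 0 * sD n 1 * sD n 0 = sD n 1 * sD n 0 * sD n 1 := sD_braid (i := 0) h
  calc (fD n 0 * sD n 0) * sD n 1 * (fD n 0 * sD n 0)
      = fD n 0 * sD n 0 * (sD n 1 * fD n 0) * sD n 0 := by group
    _ = fD n 0 * (sD n 0 * fD n 1) * sD n 1 * sD n 0 := by rw [e1]; group
    _ = fD n 1 * (sD n 0 * sD n 1 * sD n 0) := by rw [e2]; group
    _ = (fD n 1 * sD n 1) * sD n 0 * sD n 1 := by rw [e3]; group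
    _ = sD n 1 * (fD n 0 * sD n 0) * sD n 1 := by rw [← e1]; group

theorem aD_two {i : ℕ} (hi : 2 ≤ i) (h : i < n) :
    (fD n 0 * sD n 0) * sD n i = sD n i * (fD n 0 * sD n 0) := by
  obtain ⟨i, rfl⟩ : ∃ i', i = i' + 1 := ⟨i - 1, by omega⟩
  have e1 : sD n (i + 1) * fD n 0 = fD n 0 * sD n (i + 1) := by
    rw [sD_fD' h (by omega), dsn _ (by omega) (by omega)]
  calc (fD n 0 * sD n 0) * sD n (i + 1) = fD n 0 * (sD n 0 * sD n (i + 1)) := by group
    _ = (fD n 0 * sD n (i + 1)) * sD n 0 := by rw [sD_comm (by omega)]; group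
    _ = sD n (i + 1) * (fD n 0 * sD n 0) := by rw [← e1]; group

/-- the map to the semidirect product -/
def embD (n : ℕ) : Artin (typeD n) →* DD n :=
  Artin.lift (fun x => match x with
    | none => fD n 0 * sD n 0
    | some i => sD n i) (by
    have key : ∀ j : Fin n, alt (fD n 0 * sD n 0) (sD n j) (if (j : ℕ) = 1 then 3 else 2) =
        alt (sD n j) (fD n 0 * sD n 0) (if (j : ℕ) = 1 then 3 else 2) := by
      intro j
      split_ifs with hj
      · rw [alt_three, alt_three, hj]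
        exact aD_one (by have := j.2; omega)
      · rw [alt_two, alt_two]
        by_cases h0 : (j : ℕ) = 0
        · rw [h0]
          exact aD_zero (by have := j.2; omega)
        · exact aD_two (by omega) j.2
    intro x y
    rcases x with _ | i <;> rcases y with _ | j
    · rfl
    · exact key j
    · exact (key i).symm
    · show alt (sD n i) (sD n j) (CoxeterMatrix.A n i j) = alt (sD n j) (sD n i) (CoxeterMatrix.A n i j)
      rw [A_apply]
      by_cases hij : i = j
      · subst hij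
        rfl
      · have hne : (i : ℕ) ≠ j := fun h => hij (Fin.ext h)
        rw [if_neg hij]
        by_cases hadj : (j : ℕ) + 1 = i ∨ (i : ℕ) + 1 = j
        · rw [if_pos hadj, alt_three, alt_three]
          rcases hadj with h | h
          · rw [← h]
            exact (sD_braid (by have := i.2; omega)).symm
          · rw [← h]
            exact sD_braid (by have := j.2; omega)
        · rw [if_neg hadj, alt_two, alt_two]
          push Not at hadj
          rcases lt_or_gt_of_ne hne with h | h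
          · exact sD_comm (by omega)
          · exact (sD_comm (by omega)).symm)

/-- the braids in the group of type `D` -/
def gD (n : ℕ) : Bn n →* Artin (typeD n) :=
  Artin.lift (fun i => Artin.gen _ (some i)) fun i j => Artin.rel (M := typeD n) (some i) (some j)

theorem gD_sg {i : ℕ} (hi : i < n) : gD n (sg n i) = Artin.gen _ (some ⟨i, hi⟩) := by
  unfold gD sg
  rw [dif_pos hi, Artin.lift_gen]

theorem embD_injective (hn : 0 < n) : Function.Injective (embD n) := by
  have k0 : Artin.gen (typeD n) none * gD n (sg n 0) = gD n (sg n 0) * Artin.gen (typeD n) none := by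
    have h := Artin.rel (M := typeD n) none (some ⟨0, hn⟩)
    have h' : typeD n none (some ⟨0, hn⟩) = 2 := rfl
    rw [h', alt_two, alt_two] at h
    rw [gD_sg hn]
    exact h
  have k1 : 1 < n → Artin.gen (typeD n) none * gD n (sg n 1) * Artin.gen (typeD n) none =
      gD n (sg n 1) * Artin.gen (typeD n) none * gD n (sg n 1) := by
    intro h1
    have h := Artin.rel (M := typeD n) none (some ⟨1, h1⟩)
    have h' : typeD n none (some ⟨1, h1⟩) = 3 := rfl
    rw [h', alt_three, alt_three] at h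
    rw [gD_sg h1]
    exact h
  have k2 : ∀ i, 2 ≤ i → i < n → Artin.gen (typeD n) none * gD n (sg n i) =
      gD n (sg n i) * Artin.gen (typeD n) none := by
    intro i h2 hi
    have h := Artin.rel (M := typeD n) none (some ⟨i, hi⟩)
    have h' : typeD n none (some ⟨i, hi⟩) = 2 := by
      show (if i = 1 then 3 else 2) = 2
      rw [if_neg (by omega)]
    rw [h', alt_two, alt_two] at h
    rw [gD_sg hi]
    exact h
  let Ψ : DD n →* Artin (typeD n) := dlift (gD n) (Artin.gen _ none) k0 k1 k2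
  have h1 : Ψ.comp (embD n) = MonoidHom.id _ := by
    refine Artin.hom_ext fun x => ?_
    rw [MonoidHom.comp_apply, MonoidHom.id_apply]
    unfold embD
    rw [Artin.lift_gen]
    rcases x with _ | i
    · show Ψ (fD n 0 * sD n 0) = _
      rw [map_mul]
      have e1 : Ψ (fD n 0) = zz (gD n) (Artin.gen _ none) 0 := dlift_x _ _ _ _ _ hn
      have e2 : Ψ (sD n 0) = gD n (sg n 0) := dlift_inr _ _ _ _ _ _
      rw [e1, e2]
      show Artin.gen (typeD n) none * (gD n (sg n 0))⁻¹ * gD n (sg n 0) = _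
      rw [inv_mul_cancel_right]
    · show Ψ (sD n i) = _
      have e2 : Ψ (sD n i) = gD n (sg n i) := dlift_inr _ _ _ _ _ _
      rw [e2, gD_sg i.2]
  exact Function.LeftInverse.injective (g := Ψ) fun x => DFunLike.congr_fun h1 x

theorem wps_D (hn : 0 < n) : WPS (Artin (typeD n)) :=
  WPS.inj (embD n) (embD_injective hn) (wps_dd n)

end group

end Pool.Agent.H87.Bra
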