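import Pool.Agent.H87.Bra.Cv
import Pool.Agent.H87.Bra.Dn

set_option autoImplicit false

/-! Explicit labels of the blocks. -/

namespace Pool.Agent.H87.Bra

open Pool.Agent.H482R3 Pool.Agent.H482R3.EB Pool.Agent.Helper741

theorem cw_A {a : ℕ} (m : Fin a → Fin a → ℕ) (σ : Equiv.Perm (Fin a))
    (h : ∀ i j, m i j = if σ i = σ j then 1 else
      if (σ i : ℕ) + 1 = σ j ∨ (σ j : ℕ) + 1 = σ i then 3 else 2) : SolvWP m := by
  refine solv_of_wps m (CoxeterMatrix.A a) σ (fun i j => ?_) (wps_bn a)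
  rw [h i j]
  show _ = if σ i = σ j then 1 else if (σ j : ℕ) + 1 = σ i ∨ (σ i : ℕ) + 1 = σ j then 3 else 2
  simp only [or_comm]

theorem cw_B {a : ℕ} (ha : 2 ≤ a) (m : Fin a → Fin a → ℕ) (σ : Equiv.Perm (Fin a))
    (h : ∀ i j, m i j = if σ i = σ j then 1 else
      if (σ i : ℕ) + 1 = σ j ∨ (σ j : ℕ) + 1 = σ i then
        (if (σ i : ℕ) + 1 = a ∨ (σ j : ℕ) + 1 = a then 4 else 3) else 2) : SolvWP m := by
  obtain ⟨a, rfl⟩ : ∃ a', a = a' + 1 := ⟨a - 1, by omega⟩
  refine solv_of_wps m (CoxeterMatrix.B (a + 1)) σ (fun i j => ?_) (wps_B a)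
  rw [h i j]
  show _ = if σ i = σ j then 1
      else (if (σ i : ℕ) = a + 1 - 1 ∧ (σ j : ℕ) = a + 1 - 2 ∨
        (σ j : ℕ) = a + 1 - 1 ∧ (σ i : ℕ) = a + 1 - 2 then 4
        else (if (σ j : ℕ) + 1 = σ i ∨ (σ i : ℕ) + 1 = σ j then 3 else 2))
  have h1 := (σ i).2
  have h2 := (σ j).2
  split_ifs <;> omega

theorem cw_D {a : ℕ} (ha : 3 ≤ a) (m : Fin a → Fin a → ℕ) (σ : Equiv.Perm (Fin a))
    (h : ∀ i j, m i j = if σ i = σ j then 1 else
      if (σ i : ℕ) + 1 = σ j ∧ (σ j : ℕ) + 1 < a ∨ (σ j : ℕ) + 1 = σ i ∧ (σ i : ℕ) + 1 < a ∨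
        (σ i : ℕ) = 1 ∧ (σ j : ℕ) + 1 = a ∨ (σ j : ℕ) = 1 ∧ (σ i : ℕ) + 1 = a then 3 else 2) :
    SolvWP m := by
  obtain ⟨a, rfl⟩ : ∃ a', a = a' + 1 := ⟨a - 1, by omega⟩
  refine solv_of_wps m (typeD a) (σ.trans finSuccEquivLast) (fun i j => ?_) (wps_D (by omega))
  rw [h i j, Equiv.trans_apply, Equiv.trans_apply]
  generalize σ i = x
  generalize σ j = y
  induction x using Fin.lastCases with
  | last =>
    induction y using Fin.lastCases with
    | last =>
      rw [finSuccEquivLast_last, if_pos rfl]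
      rfl
    | cast y =>
      rw [finSuccEquivLast_last, finSuccEquivLast_castSucc]
      show _ = if (y : ℕ) = 1 then 3 else 2
      have h1 := y.2
      have h2 : Fin.last a ≠ y.castSucc := (Fin.castSucc_lt_last y).ne'
      rw [if_neg h2, Fin.val_last, Fin.val_castSucc]
      split_ifs <;> omega
  | cast x =>
    induction y using Fin.lastCases with
    | last =>
      rw [finSuccEquivLast_last, finSuccEquivLast_castSucc]
      show _ = if (x : ℕ) = 1 then 3 else 2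
      have h1 := x.2
      have h2 : x.castSucc ≠ Fin.last a := (Fin.castSucc_lt_last x).ne
      rw [if_neg h2, Fin.val_last, Fin.val_castSucc]
      split_ifs <;> omega
    | cast y =>
      rw [finSuccEquivLast_castSucc, finSuccEquivLast_castSucc]
      show _ = if x = y then 1 else if (y : ℕ) + 1 = x ∨ (x : ℕ) + 1 = y then 3 else 2
      have h1 := x.2
      have h3 := y.2
      have h2 : x.castSucc = y.castSucc ↔ x = y := Fin.castSucc_inj
      simp only [h2, Fin.val_castSucc]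
      split_ifs <;> omega

theorem cw_cyc {a : ℕ} (ha : 3 ≤ a) (m : Fin a → Fin a → ℕ) (σ : Equiv.Perm (Fin a))
    (h : ∀ i j, m i j = if σ i = σ j then 1 else
      if ((σ i : ℕ) + 1) % a = σ j ∨ ((σ j : ℕ) + 1) % a = σ i then 3 else 2) : SolvWP m := by
  obtain ⟨a, rfl⟩ : ∃ a', a = a' + 1 := ⟨a - 1, by omega⟩
  refine solv_of_wps m (cyc (a + 1)) σ (fun i j => ?_) (wps_cyc a (by omega))
  rw [h i j]
  show _ = if σ i = σ j then 1 else if σ i + 1 = σ j ∨ σ j + 1 = σ i then 3 else 2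
  have key : ∀ x y : Fin (a + 1), ((x : ℕ) + 1) % (a + 1) = y ↔ x + 1 = y := by
    intro x y
    rw [Fin.ext_iff, Fin.val_add, Fin.val_one']
    simp [Nat.add_mod]
  simp only [key]

end Pool.Agent.H87.Bra
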