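import Pool.Graph.R_seed8.Helper741.Alt

/-! The Coxeter matrix of a cycle (after helper53's file on virtual Artin groups). -/

set_option autoImplicit false

namespace Pool.Agent.H87.Bra

/-- the Coxeter matrix of the cycle of length `n`: type affine `A_{n-1}` if `3 ≤ n` -/
def cyc (n : ℕ) : CoxeterMatrix (ZMod n) where
  M := fun i j => if i = j then 1 else if i + 1 = j ∨ j + 1 = i then 3 else 2
  isSymm := by
    ext i j
    show (if j = i then 1 else if j + 1 = i ∨ i + 1 = j then 3 else 2) =
      (if i = j then 1 else if i + 1 = j ∨ j + 1 = i then 3 else 2)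
    by_cases h : i = j
    · rw [if_pos h, if_pos h.symm]
    · rw [if_neg h, if_neg (Ne.symm h)]
      by_cases h1 : i + 1 = j ∨ j + 1 = i
      · rw [if_pos h1, if_pos h1.symm]
      · rw [if_neg h1, if_neg fun h2 => h1 h2.symm]
  diagonal := fun i => if_pos rfl
  off_diagonal := fun i j h => by
    show (if i = j then 1 else if i + 1 = j ∨ j + 1 = i then 3 else 2) ≠ 1
    rw [if_neg h]
    split_ifs <;> norm_num

end Pool.Agent.H87.Bra
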