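import Pool.Agent.H87.Art.Re

set_option autoImplicit false

/-! Groups all of whose finite sets of elements have a decidable set of relations. -/

namespace Pool.Agent.H87.Bra

open Pool.Agent.H87.Art Pool.Agent.H482R3

/-- words in `k` letters and their inverses -/
abbrev Wd (k : ℕ) : Type := List (Fin k × Bool)

section ev

variable {G H : Type} [Group G] [Group H]

/-- the value of a letter -/
def lt {k : ℕ} (g : Fin k → G) (a : Fin k × Bool) : G := if a.2 then g a.1 else (g a.1)⁻¹

/-- the value of a word -/
def vl {k : ℕ} (g : Fin k → G) (u : Wd k) : G := (u.map (lt g)).prod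

@[simp] theorem vl_nil {k : ℕ} (g : Fin k → G) : vl g [] = 1 := rfl

@[simp] theorem vl_cons {k : ℕ} (g : Fin k → G) (a : Fin k × Bool) (u : Wd k) :
    vl g (a :: u) = lt g a * vl g u := by
  unfold vl; rw [List.map_cons, List.prod_cons]

theorem vl_append {k : ℕ} (g : Fin k → G) (u v : Wd k) : vl g (u ++ v) = vl g u * vl g v := by
  unfold vl; rw [List.map_append, List.prod_append]

theorem lt_map {k : ℕ} (φ : G →* H) (g : Fin k → G) (a : Fin k × Bool) :
    φ (lt g a) = lt (fun i => φ (g i)) a := by
  unfold lt
  split_ifs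
  · rfl
  · exact map_inv _ _

theorem vl_map {k : ℕ} (φ : G →* H) (g : Fin k → G) (u : Wd k) :
    φ (vl g u) = vl (fun i => φ (g i)) u := by
  induction u with
  | nil => exact map_one φ
  | cons a u ih => rw [vl_cons, vl_cons, map_mul, ih, lt_map]

end ev

/-- the relations between any finitely many elements are decidable -/
def WPS (G : Type) [Group G] : Prop :=
  ∀ (k : ℕ) (g : Fin k → G), ComputablePred fun u : Wd k => vl g u = 1

theorem WPS.inj {G H : Type} [Group G] [Group H] (φ : G →* H) (hφ : Function.Injective φ)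
    (h : WPS H) : WPS G := by
  intro k g
  refine (h k fun i => φ (g i)).of_eq fun u => ?_
  rw [← vl_map, map_eq_one_iff φ hφ]

theorem cp_and' {α : Type} [Primcodable α] {p q : α → Prop} (hp : ComputablePred p)
    (hq : ComputablePred q) : ComputablePred fun a => p a ∧ q a :=
  (EB.Asm.cp α inferInstance 0).1 p q hp hq

theorem cp_true {α : Type} [Primcodable α] : ComputablePred fun _ : α => True :=
  (cp_eq (α := α) (Computable.const true) (Computable.const true)).of_eq fun _ =>
    ⟨fun _ => trivial, fun _ => rfl⟩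

theorem cp_all {α κ : Type} [Primcodable α] [Fintype κ] (p : κ → α → Prop)
    (h : ∀ i, ComputablePred (p i)) : ComputablePred fun a => ∀ i, p i a := by
  have h1 : ∀ l : List κ, ComputablePred fun a => ∀ i ∈ l, p i a := by
    intro l
    induction l with
    | nil => exact cp_true.of_eq fun _ => by simp
    | cons k l ih =>
      refine (cp_and' (h k) ih).of_eq fun a => ?_
      simp
  exact (h1 (Finset.univ : Finset κ).toList).of_eq fun a => by simp

/-- the letters of the transducer of the wreath product -/
def ix (k m : ℕ) (a : Fin k × Bool) (s : Fin m) : Fin (k * 2 * m) :=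
  finProdFinEquiv (finProdFinEquiv (a.1, if a.2 then 1 else 0), s)

/-- one step of the transducer -/
def stp {k m : ℕ} (nx : Fin k × Bool → Fin m → Fin m) (p : Fin m × Wd (k * 2 * m))
    (a : Fin k × Bool) : Fin m × Wd (k * 2 * m) := (nx a p.1, p.2 ++ [(ix k m a p.1, true)])

theorem prim_stp {k m : ℕ} (nx : Fin k × Bool → Fin m → Fin m) : Primrec₂ (stp nx) := by
  have h1 : Primrec fun x : (Fin k × Bool) × Fin m => nx x.1 x.2 := Primrec.dom_finite _
  have h2 : Primrec fun x : (Fin k × Bool) × Fin m => (ix k m x.1 x.2, true) := Primrec.dom_finite _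
  have h3 : Primrec fun x : (Fin m × Wd (k * 2 * m)) × (Fin k × Bool) => (x.2, x.1.1) :=
    Primrec.pair Primrec.snd (Primrec.fst.comp Primrec.fst)
  have h4 : Primrec fun x : (Fin m × Wd (k * 2 * m)) × (Fin k × Bool) =>
      ([(ix k m x.2 x.1.1, true)] : Wd (k * 2 * m)) :=
    Primrec.list_cons.comp (h2.comp h3) (Primrec.const [])
  have h5 : Primrec fun x : (Fin m × Wd (k * 2 * m)) × (Fin k × Bool) =>
      (x.1.2 ++ [(ix k m x.2 x.1.1, true)] : Wd (k * 2 * m)) :=
    (Primrec.list_append (α := Fin (k * 2 * m) × Bool)).comp (Primrec.snd.comp Primrec.fst) h4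
  exact Primrec.pair (h1.comp h3) h5

theorem prim_run {k m : ℕ} (nx : Fin k × Bool → Fin m → Fin m) (s : Fin m) :
    Primrec fun u : Wd k => (u.foldl (stp nx) (s, [])).2 := by
  have h1 : Primrec fun u : Wd k => u.foldl (stp nx) ((s, []) : Fin m × Wd (k * 2 * m)) := by
    refine Primrec.list_foldl (f := fun u : Wd k => u)
      (g := fun _ => ((s, []) : Fin m × Wd (k * 2 * m))) (h := fun _ p => stp nx p.1 p.2)
      Primrec.id (Primrec.const _) ?_
    have h2 : Primrec fun x : Wd k × ((Fin m × Wd (k * 2 * m)) × (Fin k × Bool)) =>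
        stp nx x.2.1 x.2.2 :=
      (prim_stp nx).comp (Primrec.fst.comp Primrec.snd) (Primrec.snd.comp Primrec.snd)
    exact h2
  exact Primrec.snd.comp h1

end Pool.Agent.H87.Bra
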