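import Pool.Agent.H87.Bra.Wp
import Pool.Agent.H87.Bra.Wr

set_option autoImplicit false

/-! Decidable relations in wreath products and in semidirect products with free groups. -/

namespace Pool.Agent.H87.Bra

open Pool.Agent.H87.Art Pool.Agent.H482R3

section wreath

variable {G : Type} [Group G] {k m : ℕ} (g : Fin k → Wr G m)

/-- the next state -/
def nxt (a : Fin k × Bool) (s : Fin m) : Fin m := (lt g a).right⁻¹ s

/-- the elements of the base which occur -/
def bse (j : Fin (k * 2 * m)) : G :=
  (lt g ((finProdFinEquiv.symm (finProdFinEquiv.symm j).1).1,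
    decide ((finProdFinEquiv.symm (finProdFinEquiv.symm j).1).2 = 1))).left (finProdFinEquiv.symm j).2

theorem bse_ix (a : Fin k × Bool) (s : Fin m) : bse g (ix k m a s) = (lt g a).left s := by
  unfold bse ix
  simp only [Equiv.symm_apply_apply]
  congr 3
  obtain ⟨i, b⟩ := a
  cases b <;> simp

theorem run_fst (u : Wd k) : ∀ (s : Fin m) (c : Wd (k * 2 * m)),
    (u.foldl (stp (nxt g)) (s, c)).1 = (vl g u).right⁻¹ s := by
  induction u with
  | nil => intro s c; simp
  | cons a u ih =>
    intro s c
    rw [List.foldl_cons]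
    show (u.foldl (stp (nxt g)) (nxt g a s, c ++ [(ix k m a s, true)])).1 = _
    rw [ih, vl_cons, SemidirectProduct.mul_right, mul_inv_rev]
    rfl

theorem run_snd (u : Wd k) : ∀ (s : Fin m) (c : Wd (k * 2 * m)),
    vl (bse g) (u.foldl (stp (nxt g)) (s, c)).2 = vl (bse g) c * (vl g u).left s := by
  induction u with
  | nil => intro s c; simp
  | cons a u ih =>
    intro s c
    rw [List.foldl_cons]
    show vl (bse g) (u.foldl (stp (nxt g)) (nxt g a s, c ++ [(ix k m a s, true)])).2 = _
    rw [ih, vl_append, vl_cons, vl_nil, mul_one, vl_cons, wr_mul_left]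
    have h1 : lt (bse g) (ix k m a s, true) = (lt g a).left s := by
      unfold lt
      rw [if_pos rfl]
      exact bse_ix g a s
    rw [h1, mul_assoc]
    rfl

end wreath

theorem WPS.wr {G : Type} [Group G] (h : WPS G) (m : ℕ) : WPS (Wr G m) := by
  intro k g
  have h1 : ∀ s : Fin m, Primrec fun u : Wd k =>
      u.foldl (stp (nxt g)) ((s, []) : Fin m × Wd (k * 2 * m)) := by
    intro s
    refine Primrec.list_foldl (f := fun u : Wd k => u)
      (g := fun _ => ((s, []) : Fin m × Wd (k * 2 * m))) (h := fun _ p => stp (nxt g) p.1 p.2)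
      Primrec.id (Primrec.const _) ?_
    have h2 : Primrec fun x : Wd k × ((Fin m × Wd (k * 2 * m)) × (Fin k × Bool)) =>
        stp (nxt g) x.2.1 x.2.2 :=
      (prim_stp (nxt g)).comp (Primrec.fst.comp Primrec.snd) (Primrec.snd.comp Primrec.snd)
    exact h2
  have h2 : ComputablePred fun u : Wd k => ∀ s : Fin m,
      (u.foldl (stp (nxt g)) ((s, []) : Fin m × Wd (k * 2 * m))).1 = s ∧
        vl (bse g) (u.foldl (stp (nxt g)) ((s, []) : Fin m × Wd (k * 2 * m))).2 = 1 := by
    refine cp_all _ fun s => cp_and' ?_ ?_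
    · exact cp_eq (Primrec.fst.comp (h1 s)).to_comp (Computable.const s)
    · exact cp_comp (h _ (bse g)) (Primrec.snd.comp (h1 s)).to_comp
  refine h2.of_eq fun u => ?_
  constructor
  · intro h3
    refine SemidirectProduct.ext ?_ ?_
    · funext s
      have h4 := (h3 s).2
      rw [run_snd, vl_nil, one_mul] at h4
      exact h4
    · refine inv_injective (Equiv.ext fun s => ?_)
      have h4 := (h3 s).1
      rw [run_fst] at h4
      rw [h4]
      simp
  · intro h3 s
    rw [run_fst, run_snd, h3]
    simp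

section free

variable {m : ℕ}

/-- one step of the reduction -/
def rst (a : Fin m × Bool) (L : Wd m) : Wd m :=
  match L with
  | [] => [a]
  | b :: t => if a.1 = b.1 ∧ a.2 = !b.2 then t else a :: b :: t

theorem reduce_foldr (u : Wd m) : FreeGroup.reduce u = u.foldr rst [] := by
  induction u with
  | nil => rfl
  | cons a u ih =>
    rw [List.foldr_cons, ← ih, FreeGroup.reduce.cons]
    unfold rst
    cases FreeGroup.reduce u <;> rfl

theorem prim_rst : Primrec₂ (rst (m := m)) := by
  have h1 : Primrec fun x : (((Fin m × Bool) × Wd m) × ((Fin m × Bool) × Wd m)) =>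
      if x.1.1.1 = x.2.1.1 ∧ x.1.1.2 = !x.2.1.2 then x.2.2 else x.1.1 :: x.2.1 :: x.2.2 := by
    refine Primrec.ite ?_ (Primrec.snd.comp Primrec.snd) ?_
    · refine PrimrecPred.and ?_ ?_
      · exact Primrec.eq.comp (Primrec.fst.comp (Primrec.fst.comp Primrec.fst))
          (Primrec.fst.comp (Primrec.fst.comp Primrec.snd))
      · exact Primrec.eq.comp (Primrec.snd.comp (Primrec.fst.comp Primrec.fst))
          (Primrec.not.comp (Primrec.snd.comp (Primrec.fst.comp Primrec.snd)))
    · exact Primrec.list_cons.comp (Primrec.fst.comp Primrec.fst)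
        (Primrec.list_cons.comp (Primrec.fst.comp Primrec.snd) (Primrec.snd.comp Primrec.snd))
  have h2 : Primrec fun x : (Fin m × Bool) × Wd m => ([x.1] : Wd m) :=
    Primrec.list_cons.comp Primrec.fst (Primrec.const [])
  have h3 : Primrec fun x : (Fin m × Bool) × Wd m =>
      (List.casesOn x.2 ([x.1] : Wd m) fun b t =>
        if x.1.1 = b.1 ∧ x.1.2 = !b.2 then t else x.1 :: b :: t : Wd m) :=
    Primrec.list_casesOn Primrec.snd h2 h1.to₂
  refine h3.of_eq fun x => ?_
  obtain ⟨a, L⟩ := x
  cases L <;> rfl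

theorem cp_free : ComputablePred fun u : Wd m => FreeGroup.mk u = 1 := by
  have h1 : Primrec fun u : Wd m => u.foldr rst [] := by
    refine Primrec.list_foldr (f := fun u : Wd m => u) (g := fun _ => ([] : Wd m))
      (h := fun _ p => rst p.1 p.2) Primrec.id (Primrec.const _) ?_
    have h2 : Primrec fun x : Wd m × ((Fin m × Bool) × Wd m) => rst x.2.1 x.2.2 :=
      prim_rst.comp (Primrec.fst.comp Primrec.snd) (Primrec.snd.comp Primrec.snd)
    exact h2
  refine (cp_eq h1.to_comp (Computable.const ([] : Wd m))).of_eq fun u => ?_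
  rw [← reduce_foldr, ← FreeGroup.toWord_mk, FreeGroup.toWord_eq_nil_iff]

end free

section semi

variable {H : Type} [Group H] {k m : ℕ} (φ : H →* MulAut (FreeGroup (Fin m)))
variable (g : Fin k → FreeGroup (Fin m) ⋊[φ] H)

/-- one step of the computation of the left part -/
def lst' (a : Fin k × Bool) (L : Wd m) : Wd m :=
  (lt g a).left.toWord ++ L.flatMap fun b => (φ (lt g a).right (FreeGroup.mk [b])).toWord

theorem mk_flatMap (f : FreeGroup (Fin m) →* FreeGroup (Fin m)) (L : Wd m) :
    FreeGroup.mk (L.flatMap fun b => (f (FreeGroup.mk [b])).toWord) = f (FreeGroup.mk L) := by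
  induction L with
  | nil => exact (map_one f).symm
  | cons b L ih =>
    rw [List.flatMap_cons, ← FreeGroup.mul_mk, ih, FreeGroup.mk_toWord, ← map_mul,
      FreeGroup.mul_mk]
    rfl

theorem mk_lst' (a : Fin k × Bool) (L : Wd m) :
    FreeGroup.mk (lst' φ g a L) = (lt g a).left * φ (lt g a).right (FreeGroup.mk L) := by
  unfold lst'
  rw [← FreeGroup.mul_mk, FreeGroup.mk_toWord]
  congr 1
  exact mk_flatMap (φ (lt g a).right).toMonoidHom L

theorem left_foldr (u : Wd k) : FreeGroup.mk (u.foldr (lst' φ g) []) = (vl g u).left := by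
  induction u with
  | nil => rfl
  | cons a u ih => rw [List.foldr_cons, mk_lst', ih, vl_cons, SemidirectProduct.mul_left]

theorem prim_lst' : Primrec₂ (lst' φ g) := by
  have h1 : Primrec fun a : Fin k × Bool => (lt g a).left.toWord := Primrec.dom_finite _
  have h2 : Primrec fun x : (Fin k × Bool) × (Fin m × Bool) =>
      (φ (lt g x.1).right (FreeGroup.mk [x.2])).toWord := Primrec.dom_finite _
  have h3 : Primrec fun x : (Fin k × Bool) × Wd m =>
      (x.2.flatMap fun b => (φ (lt g x.1).right (FreeGroup.mk [b])).toWord : Wd m) := by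
    refine Primrec.list_flatMap (f := fun x : (Fin k × Bool) × Wd m => x.2)
      (g := fun x b => (φ (lt g x.1).right (FreeGroup.mk [b])).toWord) Primrec.snd ?_
    exact h2.comp (Primrec.pair (Primrec.fst.comp Primrec.fst) Primrec.snd)
  exact (Primrec.list_append (α := Fin m × Bool)).comp (h1.comp Primrec.fst) h3

theorem WPS.semi (h : WPS H) : WPS (FreeGroup (Fin m) ⋊[φ] H) := by
  intro k g
  have h1 : Primrec fun u : Wd k => u.foldr (lst' φ g) [] := by
    refine Primrec.list_foldr (f := fun u : Wd k => u) (g := fun _ => ([] : Wd m))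
      (h := fun _ p => lst' φ g p.1 p.2) Primrec.id (Primrec.const _) ?_
    have h2 : Primrec fun x : Wd k × ((Fin k × Bool) × Wd m) => lst' φ g x.2.1 x.2.2 :=
      (prim_lst' φ g).comp (Primrec.fst.comp Primrec.snd) (Primrec.snd.comp Primrec.snd)
    exact h2
  refine (cp_and' (cp_comp cp_free h1.to_comp)
    (h k fun i => SemidirectProduct.rightHom (g i))).of_eq fun u => ?_
  rw [left_foldr, ← vl_map]
  constructor
  · rintro ⟨h2, h3⟩
    exact SemidirectProduct.ext h2 h3
  · intro h2
    rw [h2]
    exact ⟨rfl, rfl⟩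

end semi

/-- braid groups -/
theorem wps_bn (n : ℕ) : WPS (Bn n) := by
  induction n with
  | zero =>
    intro k g
    refine cp_true.of_eq fun u => ?_
    have h1 : ∀ b : Bn 0, b = 1 := by
      intro b
      refine b_ind (p := fun b => b = 1) rfl (fun i hi => absurd hi (by omega)) ?_ ?_ b
      · rintro x y rfl rfl; exact one_mul 1
      · rintro x rfl; exact inv_one
    exact ⟨fun _ => h1 _, fun _ => trivial⟩
  | succ n ih => exact WPS.inj (mono n) (mono_injective n) (WPS.wr (WPS.semi (rho n) ih) (n + 2))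

theorem wps_hh (n : ℕ) : WPS (HH n) := WPS.semi (rho n) (wps_bn n)

end Pool.Agent.H87.Bra
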